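import Pool.Agent.H91.SYA.Cnt

/-! AGC. The restrictions of the primes to the attracting plane have no common zero. -/

set_option autoImplicit false

namespace Pool.Agent.H91.SYA

open MvPolynomial Pool.Agent.H2.ST Pool.Agent.H15.TG Pool.Agent.H19.SYA

section cnt

variable {F : Type} [Field F] [Fintype F]

theorem card_u {n : ℕ} (c' : Fin (n + 2) → F) :
    (Fintype.card F - 1) * (Fintype.card F - (n + 1)) * (Fintype.card F * Fintype.card F) ≤
    Nat.card {x : Fin 4 → F // ∀ s : Fin (n + 2), x (if s = 0 then 0 else 1) ≠ c' s} := by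
  classical
  set T : Finset F := (Finset.univ.erase (0 : Fin (n + 2))).image c' with hT
  have hTc : T.card ≤ n + 1 := by
    refine (Finset.card_image_le).trans ?_
    rw [Finset.card_erase_of_mem (Finset.mem_univ _), Finset.card_univ, Fintype.card_fin]
    omega
  have h1 : Nat.card ({a : F // a ≠ c' 0} × {b : F // b ∉ T} × F × F) =
      (Fintype.card F - 1) * ((Fintype.card F - T.card) *
        (Fintype.card F * Fintype.card F)) := by
    rw [Nat.card_eq_fintype_card, Fintype.card_prod, Fintype.card_prod, Fintype.card_prod,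
      Fintype.card_subtype_compl, Fintype.card_subtype_compl, Fintype.card_coe,
      Fintype.card_subtype_eq]
  have h2 : Nat.card ({a : F // a ≠ c' 0} × {b : F // b ∉ T} × F × F) ≤
      Nat.card {x : Fin 4 → F // ∀ s : Fin (n + 2), x (if s = 0 then 0 else 1) ≠ c' s} := by
    refine Nat.card_le_card_of_injective
      (fun p => ⟨![p.1.1, p.2.1.1, p.2.2.1, p.2.2.2], ?_⟩) ?_
    · intro s
      by_cases hs : s = 0
      · rw [if_pos hs, hs]
        exact p.1.2
      · rw [if_neg hs]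
        intro h
        have hm : c' s ∈ T :=
          Finset.mem_image.2 ⟨s, Finset.mem_erase.2 ⟨hs, Finset.mem_univ _⟩, rfl⟩
        have h' : (p.2.1.1 : F) = c' s := h
        rw [← h'] at hm
        exact p.2.1.2 hm
    · rintro ⟨⟨a, ha⟩, ⟨b, hb⟩, c, d⟩ ⟨⟨a', ha'⟩, ⟨b', hb'⟩, c', d'⟩ h
      have h0 := congrArg Subtype.val h
      have e0 : a = a' := congrFun h0 0
      have e1 : b = b' := congrFun h0 1
      have e2 : c = c' := congrFun h0 2
      have e3 : d = d' := congrFun h0 3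
      subst e0; subst e1; subst e2; subst e3
      rfl
  refine le_trans ?_ h2
  rw [h1, mul_assoc]
  exact Nat.mul_le_mul_left _ (Nat.mul_le_mul_right _ (Nat.sub_le_sub_left hTc _))

end cnt

theorem arith (Q n : ℕ) (hQ : 1 ≤ Q) : Q ^ 4 < (Q - 1) * (Q - (n + 1)) * (Q * Q) +
    ((n + 2) * ((Q - 1) * Q ^ 2) + (1 + Q ^ 2)) := by
  obtain ⟨u, rfl⟩ : ∃ u, Q = u + 1 := ⟨Q - 1, by omega⟩
  have h0 : u + 1 - (n + 1) = u - n := by omega
  rw [Nat.add_sub_cancel, h0]
  obtain ⟨t, ht'⟩ : ∃ t, t = u - n := ⟨_, rfl⟩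
  have ht : (u : ℤ) - n ≤ (t : ℤ) := by omega
  rw [← ht']
  have h1 : (((u + 1) ^ 4 : ℕ) : ℤ) < ((u * t * ((u + 1) * (u + 1)) +
    ((n + 2) * (u * (u + 1) ^ 2) + (1 + (u + 1) ^ 2)) : ℕ) : ℤ) := by
    push_cast
    have h2 : (u : ℤ) * ((u : ℤ) - n) * (((u : ℤ) + 1) * ((u : ℤ) + 1)) ≤
        (u : ℤ) * (t : ℤ) * (((u : ℤ) + 1) * ((u : ℤ) + 1)) :=
      mul_le_mul_of_nonneg_right (mul_le_mul_of_nonneg_left ht (by positivity)) (by positivity)
    have h3 : (u : ℤ) * ((u : ℤ) - n) * (((u : ℤ) + 1) * ((u : ℤ) + 1)) +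
        (((n : ℤ) + 2) * ((u : ℤ) * ((u : ℤ) + 1) ^ 2) + (1 + ((u : ℤ) + 1) ^ 2)) =
        ((u : ℤ) + 1) ^ 4 + 1 := by ring
    linarith
  exact_mod_cast h1

section cells

variable {k : Type} [Field k]

theorem cel_pt {σ : Type} (Φ : MvPolynomial σ k →ₐ[k] k) (f : MvPolynomial σ k)
    (hf : Φ f ≠ 0) : Cel (fun i : Fin 0 => (i.elim0 : k)) Φ (fun i : Fin 0 => i)
      (fun i : Fin 0 => (i.elim0 : k)) f where
  ind := algebraicIndependent_empty_type_iff.2 (algebraMap k k).injective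
  pol s := ⟨0, C (Φ (X s)), by simp⟩
  unt := ⟨0, C (Φ f)⁻¹, by simp [hf]⟩
  inv i := i.elim0

theorem cel_xm {σ : Type} (φ : MvPolynomial σ k →ₐ[k] MvPolynomial (Fin 2) k)
    (hφ : Function.Surjective φ) :
    Cel (fun i : Fin 2 => algebraMap (MvPolynomial (Fin 2) k)
        (FractionRing (MvPolynomial (Fin 2) k)) (X i))
      ((IsScalarTower.toAlgHom k (MvPolynomial (Fin 2) k)
        (FractionRing (MvPolynomial (Fin 2) k))).comp φ) (fun i : Fin 0 => i.elim0)
      (fun i : Fin 0 => (i.elim0 : k)) 1 where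
  ind := (MvPolynomial.algebraicIndependent_X (Fin 2) k).map'
    (f := IsScalarTower.toAlgHom k (MvPolynomial (Fin 2) k)
        (FractionRing (MvPolynomial (Fin 2) k))) (IsFractionRing.injective _ _)
  pol s := by
    refine ⟨0, φ (X s), ?_⟩
    rw [pow_zero, mul_one]
    exact DFunLike.congr_fun (MvPolynomial.aeval_unique (IsScalarTower.toAlgHom k
      (MvPolynomial (Fin 2) k) (FractionRing (MvPolynomial (Fin 2) k)))) (φ (X s))
  unt := ⟨0, 1, by simp⟩
  inv i := by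
    obtain ⟨Q, hQ⟩ := hφ (X i)
    refine ⟨0, Q, ?_⟩
    rw [pow_zero, mul_one]
    show _ = algebraMap _ _ (φ Q)
    rw [hQ]

/-- the cell of a chart -/
theorem chart_cell [IsAlgClosed k] [CharZero k] (hCHT : T_CHT) (hCHR : T_CHR) (hCCL : T_CCL)
    {W : ℤ → Submodule k (Pol k 2)} {H : Pol k 2} {y : Fin 2 ⊕ Fin 2 → Pol k 2}
    {w : Fin 2 → ℤ} {K : Subalgebra k (Pol k 2)} {n : ℕ} {g : Fin (n + 2) → Pol k 2}
    {e ω : Fin (n + 2) → ℕ} {l : ℕ} (hy : Hy W H y w) (hc : CS W K n g e ω l)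
    (i : Fin (n + 2)) : ∃ D : CD k (Fin 2 ⊕ Fin 2),
      D.f = ∏ j ∈ Finset.univ.erase i, g j ∧ (∀ F, g i ∣ F → D.Φ F = 0) ∧
      ∀ (F : Type) [Field F] [Fintype F],
        (Fintype.card F - 1) * Fintype.card F ^ 2 ≤ mc F D := by
  have hω : ∀ t, 0 < ω t := by
    intro t
    refine Nat.pos_of_ne_zero (fun h => ?_)
    have h1 := hc.eo t
    rw [h, mul_zero] at h1
    exact absurd h1.symm hc.lp.ne'
  obtain ⟨j, hj⟩ := exists_ne i
  have hGp : Gp W (g i) (g j) (ω i) (ω j) :=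
    { pg := hc.pg i
      hg := hc.gw i
      hf := hc.gw j
      pa := by exact_mod_cast hω i
      pb := by exact_mod_cast hω j
      lg := hc.ln _ (hc.gK i)
      lf := hc.ln _ (hc.gK j)
      gf := hc.cm _ (hc.gK i) _ (hc.gK j)
      nd := hc.na i j hj.symm }
  obtain ⟨L, fL, aL, Θ, v, wr, m, hCh⟩ := hCHT k W H y w (g i) (g j) (ω i) (ω j) hy hGp
  have hex : ∀ t, ∃ (c : k) (a : ℕ), c ≠ 0 ∧ (t ≠ i → Θ (g t) = algebraMap k L c * v 0 ^ a) := by
    intro t
    by_cases ht : t = i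
    · exact ⟨1, 0, one_ne_zero, fun h => absurd ht h⟩
    · obtain ⟨c, a, hc0, ha, hwt⟩ := hCHR k W H (g i) (g j) (ω i) (ω j) L Θ v wr m hCh (ω t)
        (g t) (hc.gw t) (by rw [hc.cm _ (hc.gK i) _ (hc.gK t)]; exact dvd_zero _)
        (by rw [hc.cm _ (hc.gK j) _ (hc.gK t)]; exact dvd_zero _)
        (hc.na i t (fun h => ht h.symm))
      have hwr : (0 : ℤ) < wr := by exact_mod_cast hCh.wp
      have hwt' : (0 : ℤ) < a * wr := by rw [← hwt]; exact_mod_cast hω t
      have ha0 : 0 < a := by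
        by_contra h
        push Not at h
        nlinarith
      obtain ⟨b, rfl⟩ := Int.eq_ofNat_of_zero_le ha0.le
      exact ⟨c, b, hc0, fun _ => by rw [ha, zpow_natCast]⟩
  choose c a hc0 hca using hex
  have hΘ : Θ (∏ t ∈ Finset.univ.erase i, g t) =
      algebraMap k L (∏ t ∈ Finset.univ.erase i, c t) *
        v 0 ^ (∑ t ∈ Finset.univ.erase i, a t) := by
    rw [map_prod, Finset.prod_congr rfl (fun t ht => hca t (Finset.ne_of_mem_erase ht)),
      Finset.prod_mul_distrib, map_prod, Finset.prod_pow_eq_pow_sum]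
  have hcel := hCCL k W H (g i) (g j) (ω i) (ω j) L Θ v wr m hy.toPGr hCh
    (∏ t ∈ Finset.univ.erase i, g t) (∏ t ∈ Finset.univ.erase i, c t)
    (∑ t ∈ Finset.univ.erase i, a t) (Finset.prod_ne_zero_iff.2 (fun t _ => hc0 t)) hΘ
    ⟨1, by
      rw [pow_one]
      exact Finset.dvd_prod_of_mem g (Finset.mem_erase.2 ⟨hj, Finset.mem_univ _⟩)⟩
  refine ⟨⟨L, fL, aL, 3, 1, v, Θ, fun _ => 0, fun _ => 0, _, hcel⟩, rfl,
    fun F hF => (hCh.ker F).2 hF, ?_⟩
  intro F _ _
  refine le_mc _ (fun c' => ?_)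
  have h1 := card_one (n := 2) (0 : Fin 3) (c' 0)
  rw [← h1]
  refine le_of_eq (Nat.card_congr (Equiv.subtypeEquivRight (fun x => ?_)))
  constructor
  · intro h s
    rw [Subsingleton.elim s 0]
    exact h
  · intro h
    exact h 0

end cells

theorem pf_AGC (hAGL : T_AGL) (hUCL : T_UCL) (hCCL : T_CCL) (hSUA : T_SUA) (hDVP : T_DVP)
    (hXPZ : T_XPZ) (hCHT : T_CHT) (hCHR : T_CHR) : T_AGC := by
  intro k _ _ _ W H y w K n g e ω l φ φ' hy hφ hφ' hc i j hij z hz hzz
  obtain ⟨hzi, hzj⟩ := hzz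
  have hω : ∀ t, 0 < ω t := by
    intro t
    refine Nat.pos_of_ne_zero (fun h => ?_)
    have h1 := hc.eo t
    rw [h, mul_zero] at h1
    exact absurd h1.symm hc.lp.ne'
  -- all primes vanish at the point
  have hzt : ∀ t, eval z (φ (g t)) = 0 := by
    intro t
    obtain ⟨a, b, hab⟩ := hc.pl i j t hij
    have h1 := congrArg (fun F => eval z (φ F)) hab
    simp only [map_pow, map_add, map_mul, hzi, hzj] at h1
    rw [zero_pow (hc.ep i).ne', zero_pow (hc.ep j).ne', mul_zero, mul_zero, add_zero] at h1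
    exact pow_eq_zero_iff (hc.ep t).ne' |>.1 h1
  have hxt : ∀ t, φ' (g t) = 0 := by
    intro t
    refine hφ'.neg (-(ω t : ℤ)) (by have := hω t; omega) (g t) ?_
    show g t ∈ W (- -(ω t : ℤ))
    rw [neg_neg]
    exact hc.gw t
  -- the slice
  set D : Pol k 2 := ∏ t, g t with hD
  have hg0 : ∀ t, g t ∣ D := fun t => Finset.dvd_prod_of_mem g (Finset.mem_univ t)
  have hDK : D ∈ K := Subalgebra.prod_mem K (fun t _ => hc.gK t)
  have hDW : D ∈ W (∑ t, (ω t : ℤ)) :=
    prod_mem_gr hy.toGr Finset.univ (fun t => (ω t : ℤ)) g (fun t _ => hc.gw t)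
  have hD0 : D ≠ 0 := Finset.prod_ne_zero_iff.2 (fun t _ => (hc.pg t).ne_zero)
  obtain ⟨M, r, S, hS, hS0, hS1⟩ := hDVP k W H y w K n g e ω l D (∑ t, (ω t : ℤ)) hy hc hDK hDW
    hD0 (hg0 0) (fun t _ _ => hg0 t) (hSUA k W H y w K n g e ω l hy hc)
  obtain ⟨v, c, hcel⟩ := hUCL k W H y w K n g e ω l M r S hy hc hS hS0 hS1
  -- cells
  obtain ⟨nz, Fz, hnz, hFz, hFz0⟩ := hXPZ k W w φ hy.toGr hy.wp hφ z hz
  have hFx : φ' Fz = 0 := by
    refine hφ'.neg (-nz) (by omega) Fz ?_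
    show Fz ∈ W (- -nz)
    rw [neg_neg]
    exact hFz
  let cU : CD k (Fin 2 ⊕ Fin 2) := ⟨_, inferInstance, inferInstance, 4, n + 2, v, _, _, c, _, hcel⟩
  let cZ : CD k (Fin 2 ⊕ Fin 2) := ⟨k, inferInstance, inferInstance, 0, 0, _,
    (aeval z).comp φ, _, _, Fz, cel_pt ((aeval z).comp φ) Fz (by
      show aeval z (φ Fz) ≠ 0
      rw [← coe_aeval_eq_eval] at hFz0
      exact hFz0)⟩
  let cX : CD k (Fin 2 ⊕ Fin 2) := ⟨_, inferInstance, inferInstance, 2, 0, _, _, _, _, 1,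
    cel_xm φ' hφ'.sur⟩
  choose Ch hChf hChΦ hChm using chart_cell hCHT hCHR hCCL hy hc
  have hZ0 : ∀ F : Pol k 2, (∃ t, g t ∣ F) → cZ.Φ F = 0 := by
    rintro F ⟨t, u, rfl⟩
    show aeval z (φ (g t * u)) = 0
    have h1 : aeval z (φ (g t)) = 0 := by
      have := hzt t
      rw [← coe_aeval_eq_eval] at this
      exact this
    rw [map_mul, map_mul, h1, zero_mul]
  have hX0 : ∀ F : Pol k 2, φ' F = 0 → cX.Φ F = 0 := by
    intro F hF
    show algebraMap _ _ (φ' F) = 0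
    rw [hF, map_zero]
  have hX1 : ∀ F : Pol k 2, (∃ t, g t ∣ F) → cX.Φ F = 0 := by
    rintro F ⟨t, u, rfl⟩
    refine hX0 _ ?_
    rw [map_mul, hxt, zero_mul]
  have hdiv : ∀ a b : Fin (n + 2), a ≠ b → g b ∣ (Ch a).f := by
    intro a b hab
    rw [hChf]
    exact Finset.dvd_prod_of_mem g (Finset.mem_erase.2 ⟨hab.symm, Finset.mem_univ _⟩)
  obtain ⟨F, _, _, hF⟩ := agl_list hAGL (cU :: (List.ofFn Ch ++ [cZ, cX])) (by
    rw [List.pairwise_cons, List.pairwise_append]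
    refine ⟨?_, ?_, ?_, ?_⟩
    · intro C hC
      rw [List.mem_append, List.mem_ofFn] at hC
      rcases hC with ⟨a, rfl⟩ | hC
      · exact hChΦ a _ (hg0 a)
      · simp only [List.mem_cons, List.not_mem_nil, or_false] at hC
        rcases hC with rfl | rfl
        · exact hZ0 _ ⟨0, hg0 0⟩
        · exact hX1 _ ⟨0, hg0 0⟩
    · rw [List.pairwise_ofFn]
      intro a b hab
      exact hChΦ b _ (hdiv a b hab.ne)
    · rw [List.pairwise_cons]
      refine ⟨?_, List.pairwise_singleton _ _⟩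
      intro C hC
      rw [List.mem_singleton] at hC
      rw [hC]
      exact hX0 _ hFx
    · intro C hC C' hC'
      rw [List.mem_ofFn] at hC
      obtain ⟨a, rfl⟩ := hC
      obtain ⟨b, hb⟩ := exists_ne a
      simp only [List.mem_cons, List.not_mem_nil, or_false] at hC'
      rcases hC' with rfl | rfl
      · exact hZ0 _ ⟨b, hdiv a b hb.symm⟩
      · exact hX1 _ ⟨b, hdiv a b hb.symm⟩)
  rw [List.map_cons, List.sum_cons, List.map_append, List.sum_append] at hF
  have hQ : 1 ≤ Fintype.card F := Fintype.card_pos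
  have h1 : (Fintype.card F - 1) * (Fintype.card F - (n + 1)) *
      (Fintype.card F * Fintype.card F) ≤ mc F cU := le_mc _ (fun c' => card_u c')
  have h2 : (n + 2) * ((Fintype.card F - 1) * Fintype.card F ^ 2) ≤
      ((List.ofFn Ch).map (mc F)).sum := by
    rw [List.map_ofFn, List.sum_ofFn]
    calc (n + 2) * ((Fintype.card F - 1) * Fintype.card F ^ 2)
        = ∑ _ : Fin (n + 2), ((Fintype.card F - 1) * Fintype.card F ^ 2) := by
          rw [Finset.sum_const, Finset.card_univ, Fintype.card_fin, smul_eq_mul]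
      _ ≤ _ := Finset.sum_le_sum (fun a _ => hChm a F)
  have h3 : 1 ≤ mc F cZ := by
    refine le_mc _ (fun c' => ?_)
    have : Nonempty {x : Fin cZ.n → F // ∀ s, x (cZ.a s) ≠ c' s} :=
      ⟨⟨fun i => (i : Fin 0).elim0, fun s => (s : Fin 0).elim0⟩⟩
    exact Nat.card_pos
  have h4 : Fintype.card F ^ 2 ≤ mc F cX := by
    refine le_mc _ (fun c' => ?_)
    have h5 : Nat.card (Fin 2 → F) = Fintype.card F ^ 2 := by
      rw [Nat.card_eq_fintype_card, Fintype.card_fun, Fintype.card_fin]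
    rw [← h5]
    exact Nat.card_le_card_of_injective
      (fun x => (⟨x, fun s => (s : Fin 0).elim0⟩ : {x : Fin cX.n → F // ∀ s, x (cX.a s) ≠ c' s}))
      (fun x x' h => congrArg Subtype.val h)
  have h6 : ([cZ, cX].map (mc F)).sum = mc F cZ + mc F cX := by simp
  rw [h6] at hF
  have h7 := arith (Fintype.card F) n hQ
  have h8 : Fintype.card (Fin 2 ⊕ Fin 2) = 4 := rfl
  rw [h8] at hF
  omega

end Pool.Agent.H91.SYA
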