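import Pool.Agent.H19.SYA.TA
import Pool.Agent.H2.ST.Basic2

/-! Cells in a list, counting points. -/

set_option autoImplicit false

namespace Pool.Agent.H91.SYA

open MvPolynomial Pool.Agent.H2.ST Pool.Agent.H15.TG Pool.Agent.H19.SYA

/-- a bundled cell -/
structure CD (k : Type) [Field k] (σ : Type) where
  L : Type
  fL : Field L
  aL : Algebra k L
  n : ℕ
  t : ℕ
  v : Fin n → L
  Φ : MvPolynomial σ k →ₐ[k] L
  a : Fin t → Fin n
  c : Fin t → k
  f : MvPolynomial σ k
  cel : Cel v Φ a c f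

attribute [instance] CD.fL CD.aL

/-- the least number of points -/
noncomputable def mc {k : Type} [Field k] {σ : Type} (F : Type) (C : CD k σ) : ℕ :=
  sInf (Set.range fun c' : Fin C.t → F =>
    Nat.card {x : Fin C.n → F // ∀ s, x (C.a s) ≠ c' s})

theorem mc_le {k : Type} [Field k] {σ F : Type} (C : CD k σ) (c' : Fin C.t → F) :
    mc F C ≤ Nat.card {x : Fin C.n → F // ∀ s, x (C.a s) ≠ c' s} :=
  Nat.sInf_le ⟨c', rfl⟩

theorem le_mc {k : Type} [Field k] {σ F : Type} [Nonempty F] (C : CD k σ) {B : ℕ}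
    (h : ∀ c' : Fin C.t → F, B ≤ Nat.card {x : Fin C.n → F // ∀ s, x (C.a s) ≠ c' s}) :
    B ≤ mc F C := by
  obtain ⟨c', hc'⟩ : mc F C ∈ (Set.range fun c' : Fin C.t → F =>
    Nat.card {x : Fin C.n → F // ∀ s, x (C.a s) ≠ c' s}) :=
    Nat.sInf_mem (Set.range_nonempty _)
  rw [← hc']
  exact h c'

theorem agl_list (hAGL : T_AGL) {k : Type} [Field k] {σ : Type} [Fintype σ]
    (l : List (CD k σ)) (hl : l.Pairwise fun C C' => C'.Φ C.f = 0) :
    ∃ (F : Type) (_ : Field F) (_ : Fintype F),
      (l.map (mc F)).sum ≤ Fintype.card F ^ Fintype.card σ := by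
  obtain ⟨F, hF, hF', c', hc'⟩ := hAGL k σ l.length (fun i => (l.get i).L)
    (fun i => (l.get i).n) (fun i => (l.get i).t) (fun i => (l.get i).v)
    (fun i => (l.get i).Φ) (fun i => (l.get i).a) (fun i => (l.get i).c)
    (fun i => (l.get i).f) (fun i => (l.get i).cel)
    (fun i j hij => (List.pairwise_iff_get.1 hl) i j hij)
  refine ⟨F, hF, hF', le_trans ?_ hc'⟩
  have h1 : (l.map (mc F)).sum = ∑ i : Fin l.length, mc F (l.get i) := by
    rw [← Fin.sum_univ_fun_getElem l (mc F)]
    rfl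
  rw [h1]
  exact Finset.sum_le_sum (fun i _ => mc_le (l.get i) (c' i))

/-- functions with one value excluded at one coordinate -/
theorem card_one {F : Type} [Fintype F] {n : ℕ} (i : Fin (n + 1)) (c : F) :
    Nat.card {x : Fin (n + 1) → F // x i ≠ c} = (Fintype.card F - 1) * Fintype.card F ^ n := by
  classical
  rw [Nat.card_eq_fintype_card, Fintype.card_subtype_compl]
  have h1 : Fintype.card {x : Fin (n + 1) → F // x i = c} = Fintype.card F ^ n := by
    have h0 : Fintype.card (Fin n → F) = Fintype.card F ^ n := by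
      rw [Fintype.card_fun, Fintype.card_fin]
    rw [← h0]
    refine Fintype.card_congr ?_
    refine ⟨fun x j => x.1 (i.succAbove j), fun y => ⟨i.insertNth c y, by simp⟩, ?_, ?_⟩
    · rintro ⟨x, hx⟩
      ext j
      refine Fin.succAboveCases i ?_ (fun j => ?_) j
      · simp [hx]
      · simp
    · intro y
      ext j
      simp
  rw [h1, Fintype.card_fun, Fintype.card_fin, pow_succ, Nat.sub_mul, one_mul, mul_comm]

end Pool.Agent.H91.SYA
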